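import Pool.Agent.helper26.SE.T5m
import Pool.Agent.helper50.EY.ClassE

set_option autoImplicit false
set_option linter.unusedSectionVars false
set_option linter.unusedSimpArgs false

/-!
# EY-M4 (case A): the step `S(n, E)`, `q + 2 ≤ E ≤ 2 q`: `f = φ(Q; w, x) + α u^(q-1-2n) Q^n y² + β w^(E-q-1) y^(2q+2-E)`

Weights of the second sheet (coordinates `T, y, x`): `T : B D`, `y : n D`, `x : n ρ` with `B = E - 2`,
`D = 2 q (q - 1)`, `ρ = 2 q B - 1`; then `w = T - (y² + |x|²)/2` has the initial form `-y²/2`.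
-/

namespace EY

open MvPolynomial

noncomputable section

variable {τ : Type} [Fintype τ] [DecidableEq τ]

/-- the polynomial of the step; the exponents are `s + 1` and `e + 2` -/
def F8 (φ : MvPolynomial (Option (Option τ)) ℂ) (a n s e : ℕ) (α β : ℂ) :
    MvPolynomial (Option (Option (Option (Option τ)))) ℂ :=
  rename (embY τ) φ + (C α * (X (some none) ^ a * X none ^ n * X (some (some (some none))) ^ 2) +
    C β * (X (some (some none)) ^ (s + 1) * X (some (some (some none))) ^ (e + 2)))

variable (φ : MvPolynomial (Option (Option τ)) ℂ) (a n s e : ℕ) (α β : ℂ)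

theorem tev_F8_u : tev (pderiv (some none) (F8 φ a n s e α β)) =
    C (α * a) * (X none ^ n * X (some none) ^ 2) := by
  have p1 : pderiv (some none) (X (some (some (some none))) : MvPolynomial (Option (Option (Option (Option τ)))) ℂ) = 0 :=
    pderiv_X_of_ne (by simp)
  have p2 : pderiv (some none) (X (some none) : MvPolynomial (Option (Option (Option (Option τ)))) ℂ) = 1 :=
    pderiv_X_self _
  have p3 : pderiv (some none) (X none : MvPolynomial (Option (Option (Option (Option τ)))) ℂ) = 0 :=
    pderiv_X_of_ne (by simp)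
  have p4 : pderiv (some none) (X (some (some none)) : MvPolynomial (Option (Option (Option (Option τ)))) ℂ) = 0 :=
    pderiv_X_of_ne (by simp)
  unfold F8
  simp only [map_add, pderiv_embY_u, zero_add, Derivation.leibniz, Derivation.leibniz_pow, p1, p2, p3, p4, pderiv_C,
    smul_zero, smul_eq_mul, mul_one, add_zero, map_mul, map_pow, tev_x, tev_C, tev_T, tev_u,
      one_pow, mul_zero, nsmul_eq_mul, map_natCast, C_mul]
  ring

theorem tev_F8_w : tev (pderiv (some (some none)) (F8 φ a n s e α β)) =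
    sev (pderiv (some none) φ) + C (β * (s + 1)) * (wq (Option τ) ^ s * X (some none) ^ (e + 2)) := by
  have q1 : pderiv (some (some none)) (X (some (some (some none))) :
      MvPolynomial (Option (Option (Option (Option τ)))) ℂ) = 0 := pderiv_X_of_ne (by simp)
  have q2 : pderiv (some (some none)) (X (some none) : MvPolynomial (Option (Option (Option (Option τ)))) ℂ) = 0 :=
    pderiv_X_of_ne (by simp)
  have q3 : pderiv (some (some none)) (X none : MvPolynomial (Option (Option (Option (Option τ)))) ℂ) = 0 :=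
    pderiv_X_of_ne (by simp)
  have q4 : pderiv (some (some none)) (X (some (some none)) : MvPolynomial (Option (Option (Option (Option τ)))) ℂ) = 1 :=
    pderiv_X_self _
  unfold F8
  simp only [map_add, pderiv_embY_w, zero_add, Derivation.leibniz, Derivation.leibniz_pow, q1, q2, q3, q4, pderiv_C,
    smul_zero, smul_eq_mul, mul_one, add_zero, map_mul, map_pow, tev_x, tev_w, tev_C, tev_T, tev_u,
      one_pow, mul_zero, nsmul_eq_mul, map_natCast, C_mul, tev_embY, Nat.add_sub_cancel, map_one, C_add]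
  push_cast
  ring

theorem tev_F8_y : tev (pderiv (some (some (some none))) (F8 φ a n s e α β)) =
    X (some none) * (C (2 * α) * X none ^ n +
      C (β * (e + 2)) * (wq (Option τ) ^ (s + 1) * X (some none) ^ e)) := by
  have p1 : pderiv (some (some (some none))) (X (some (some (some none))) :
      MvPolynomial (Option (Option (Option (Option τ)))) ℂ) = 1 := pderiv_X_self _
  have p2 : pderiv (some (some (some none))) (X (some none) :
      MvPolynomial (Option (Option (Option (Option τ)))) ℂ) = 0 := pderiv_X_of_ne (by simp)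
  have p3 : pderiv (some (some (some none))) (X none : MvPolynomial (Option (Option (Option (Option τ)))) ℂ) = 0 :=
    pderiv_X_of_ne (by simp)
  have p4 : pderiv (some (some (some none))) (X (some (some none)) :
      MvPolynomial (Option (Option (Option (Option τ)))) ℂ) = 0 := pderiv_X_of_ne (by simp)
  have c2 : (C 2 : MvPolynomial (Option (Option τ)) ℂ) = 2 := map_ofNat C 2
  unfold F8
  simp only [map_add, pderiv_embY_y, zero_add, Derivation.leibniz, Derivation.leibniz_pow, p1, p2, p3, p4, pderiv_C,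
    smul_zero, smul_eq_mul, mul_one, add_zero, map_mul, map_pow, tev_x, tev_w, tev_C, tev_T, tev_u,
      one_pow, mul_zero, nsmul_eq_mul, map_natCast, C_mul, tev_embY, Nat.add_sub_cancel, map_one, C_add, c2]
  have e1 : e + 2 - 1 = e + 1 := rfl
  rw [e1]
  push_cast
  ring

theorem tev_F8_x (i : τ) : tev (pderiv (some (some (some (some i)))) (F8 φ a n s e α β)) =
    sev (pderiv (some (some i)) φ) := by
  have p1 : pderiv (some (some (some (some i)))) (X (some (some (some none))) :
      MvPolynomial (Option (Option (Option (Option τ)))) ℂ) = 0 := pderiv_X_of_ne (by simp)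
  have p2 : pderiv (some (some (some (some i)))) (X (some none) :
      MvPolynomial (Option (Option (Option (Option τ)))) ℂ) = 0 := pderiv_X_of_ne (by simp)
  have p3 : pderiv (some (some (some (some i)))) (X none :
      MvPolynomial (Option (Option (Option (Option τ)))) ℂ) = 0 := pderiv_X_of_ne (by simp)
  have p4 : pderiv (some (some (some (some i)))) (X (some (some none)) :
      MvPolynomial (Option (Option (Option (Option τ)))) ℂ) = 0 := pderiv_X_of_ne (by simp)
  unfold F8
  simp only [map_add, pderiv_embY_x, Derivation.leibniz, Derivation.leibniz_pow, p1, p2, p3, p4, pderiv_C,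
    smul_zero, smul_eq_mul, add_zero, mul_zero, tev_embY]

/-- the equation `λ - f_T`: `L = φ_w + β (s+1) w^s y^(e+2)` -/
def L8 : MvPolynomial (Option (Option τ)) ℂ :=
  sev (pderiv (some none) φ) + C (β * (s + 1)) * (wq (Option τ) ^ s * X (some none) ^ (e + 2))

theorem tSys_F8_none : tSys (F8 φ a n s e α β) none =
    C (α * a) * (X none ^ n * X (some none) ^ 2) - wq (Option τ) * L8 φ s e β := by
  change tev _ - wq (Option τ) * tev _ = _
  rw [tev_F8_u, tev_F8_w]
  rfl

theorem tSys_F8_y : tSys (F8 φ a n s e α β) (some none) =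
    X (some none) * (C (2 * α) * X none ^ n +
      C (β * (e + 2)) * (wq (Option τ) ^ (s + 1) * X (some none) ^ e) - L8 φ s e β) := by
  change tev _ - X (some none) * tev _ = _
  rw [tev_F8_y, tev_F8_w]
  unfold L8
  ring

theorem tSys_F8_x (i : τ) : tSys (F8 φ a n s e α β) (some (some i)) =
    sev (pderiv (some (some i)) φ) - X (some (some i)) * L8 φ s e β := by
  change tev _ - X (some (some i)) * tev _ = _
  rw [tev_F8_x, tev_F8_w]
  rfl

/-! ### the second sheet -/

/-- weights `B D, n D, n ρ` -/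
def W8 (τ : Type) (BD nD nr : ℕ) : Option (Option τ) → ℕ := fun o => o.elim BD fun o => o.elim nD fun _ => nr

/-- `φ(0; 0, x)` -/
def sev0 : MvPolynomial (Option (Option τ)) ℂ →ₐ[ℂ] MvPolynomial (Option (Option τ)) ℂ :=
  aeval fun o => o.elim 0 fun o => o.elim 0 fun k => X (some (some k))

omit [Fintype τ] [DecidableEq τ] in
theorem eval_sev0 (p : Option (Option τ) → ℂ) (φ : MvPolynomial (Option (Option τ)) ℂ) :
    eval p (sev0 φ) = eval (fun o : Option (Option τ) => o.elim 0 fun o => o.elim 0
      fun k => p (some (some k))) φ := by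
  unfold sev0
  induction φ using MvPolynomial.induction_on with
  | C a => simp
  | add p q hp hq => rw [map_add, map_add, hp, hq, map_add]
  | mul_X p' o hp =>
    rw [map_mul, map_mul, hp, map_mul, aeval_X, eval_X]
    congr 1
    rcases o with _ | _ | i <;> simp

omit [DecidableEq τ] in
/-- `w = -y²/2 + higher` -/
theorem lead_wq8 {BD nD nr : ℕ} (h1 : 2 * nD < BD) (h2 : nD < nr) :
    Lead (W8 τ BD nD nr) (2 * nD) (wq (Option τ)) (C (-(1 / 2)) * X (some none) ^ 2) := by
  rw [wq_eq]
  refine Lead.add_hi ?_ ?_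
  · have h3 := ((Lead.X (W8 τ BD nD nr) (some none)).pow 2).C_mul (-(1 / 2))
    exact h3.cast (by simp only [W8, Option.elim]; ring)
  · refine wlo_sub ?_ ?_
    · exact wlo_mono (by simp only [W8, Option.elim]; omega) (wh_X (W8 τ BD nD nr) none).wlo
    · refine wlo_C_mul _ (wlo_sum _ fun i _ => ?_)
      exact wlo_mono (by simp only [W8, Option.elim]; omega) (wh_pow (wh_X (W8 τ BD nD nr) (some (some i))) 2).wlo

omit [DecidableEq τ] in
/-- multiplying the weights -/
theorem wh_scale {φ : MvPolynomial (Option (Option τ)) ℂ} {m : ℕ} (c : ℕ) (h : wh (vw τ) m φ) :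
    wh (fun o => c * vw τ o) (c * m) φ := by
  intro α hα
  have h1 := h α hα
  unfold wd at h1 ⊢
  rw [← h1, Finset.mul_sum]
  exact Finset.sum_congr rfl fun i _ => by ring

omit [DecidableEq τ] in
/-- the initial form of `φ(T; w, x)` is `φ(0; 0, x)` -/
theorem lead_sev0 {BD nD nr m : ℕ} (h1 : 2 * nD < BD) (h2 : nD < nr) (h3 : nr < 2 * nD) (h4 : 2 * nr < BD)
    {φ : MvPolynomial (Option (Option τ)) ℂ} (h : wh (vw τ) m φ) :
    Lead (W8 τ BD nD nr) (nr * m) (sev φ) (sev0 φ) := by
  unfold sev sev0
  refine Lead.aeval (v := fun o => nr * vw τ o) (fun o => ?_) (Lead.self (wh_scale nr h).wlo)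
  rcases o with _ | _ | k
  · refine Lead.zero ?_
    exact wlo_mono (by simp only [W8, vw, Option.elim]; omega) (wh_X (W8 τ BD nD nr) none).wlo
  · refine Lead.zero ?_
    exact wlo_mono (by simp only [vw, Option.elim]; omega) (lead_wq8 h1 h2).lof
  · exact (Lead.X (W8 τ BD nD nr) (some (some k))).cast (by simp [W8, vw])

omit [DecidableEq τ] in
theorem wh_sev0 {BD nD nr m : ℕ} {φ : MvPolynomial (Option (Option τ)) ℂ} (h : wh (vw τ) m φ) :
    wh (W8 τ BD nD nr) (nr * m) (sev0 φ) := by
  unfold sev0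
  refine wh_aeval (v := fun o => nr * vw τ o) (fun o => ?_) (wh_scale nr h)
  rcases o with _ | _ | k
  · exact wh_zero _ _
  · exact wh_zero _ _
  · have h1 := wh_X (W8 τ BD nD nr) (some (some k))
    simpa [W8, vw] using h1

/-- the second sheet -/
def G8 : Option (Option τ) → MvPolynomial (Option (Option τ)) ℂ
  | none => C (α * a) * (X none ^ n * X (some none) ^ 2) - wq (Option τ) * L8 φ s e β
  | some none => C (2 * α) * X none ^ n +
      C (β * (e + 2)) * (wq (Option τ) ^ (s + 1) * X (some none) ^ e) - L8 φ s e β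
  | some (some i) => sev (pderiv (some (some i)) φ) - X (some (some i)) * L8 φ s e β

theorem arith8 {q n s e : ℕ} (hn : 1 ≤ n) (hnq : 2 * n + 1 ≤ q) (hse : s + e + 2 = q) :
    ∃ D ρ : ℕ, 0 < D ∧ 0 < ρ ∧ 2 * (n * D) < (q + s) * D ∧ n * D < n * ρ ∧ n * ρ < 2 * (n * D) ∧
      2 * (n * ρ) < (q + s) * D ∧ n * ((q + s) * D) < n * ρ * q ∧ n * ρ * q < n * ρ + n * ((q + s) * D) := by
  obtain ⟨r, rfl⟩ : ∃ r, q = r + 1 := ⟨q - 1, by omega⟩
  obtain ⟨P, hP⟩ : ∃ P, P = 2 * (r + 1) * (r + 1 + s) := ⟨_, rfl⟩
  obtain ⟨D, hD⟩ : ∃ D, D = 2 * (r + 1) * r := ⟨_, rfl⟩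
  have hr : 0 < r := by omega
  have hBD : (r + 1 + s) * D = r * P := by rw [hP, hD]; ring
  have hDpos : 0 < D := by rw [hD]; positivity
  have h1 : D + 2 ≤ P := by
    have e1 : P = D + 2 * (r + 1) * (1 + s) := by rw [hP, hD]; ring
    have e2 : 2 ≤ 2 * (r + 1) * (1 + s) := by nlinarith [Nat.zero_le (r * s)]
    omega
  have h2 : P ≤ 2 * D := by
    have e1 : 2 * (r + 1) * (r + 1 + s) ≤ 2 * (r + 1) * (2 * r) := Nat.mul_le_mul_left _ (by omega)
    rw [hP, hD]
    calc _ ≤ _ := e1
      _ = _ := by ring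
  obtain ⟨ρ, rfl⟩ : ∃ ρ, P = ρ + 1 := ⟨P - 1, by omega⟩
  refine ⟨D, ρ, hDpos, by omega, ?_, ?_, ?_, ?_, ?_, ?_⟩
  · rw [← mul_assoc]
    exact Nat.mul_lt_mul_of_pos_right (by omega) hDpos
  · exact Nat.mul_lt_mul_of_pos_left (by omega) hn
  · have : n * ρ < n * (2 * D) := Nat.mul_lt_mul_of_pos_left (by omega) hn
    calc _ < _ := this
      _ = _ := by ring
  · rw [hBD]
    have e1 : 2 * n * ρ ≤ r * ρ := Nat.mul_le_mul_right _ (by omega)
    calc 2 * (n * ρ) = 2 * n * ρ := by ring
      _ ≤ r * ρ := e1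
      _ < r * (ρ + 1) := Nat.mul_lt_mul_of_pos_left (by omega) hr
  · rw [hBD, mul_assoc]
    refine Nat.mul_lt_mul_of_pos_left ?_ hn
    have e1 : r < ρ := by nlinarith
    nlinarith
  · rw [hBD, mul_assoc, ← mul_add]
    refine Nat.mul_lt_mul_of_pos_left ?_ hn
    nlinarith

/-- **the second sheet** -/
theorem mulAt_G8 {q E₀ : ℕ} (hφ : St τ q E₀ φ) (hn : 1 ≤ n) (hnq : 2 * n + 1 ≤ q) (hse : s + e + 2 = q)
    (hα : α ≠ 0) (hβ : β ≠ 0) :
    mulAt (Ideal.span (Set.range (G8 φ a n s e α β))) 0 = n * (q + 2 + s) * q ^ Fintype.card τ := by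
  have hw : wh (vw τ) q (pderiv (some none) φ) := wh_pderiv hφ.wh _ _ rfl
  have hx : ∀ i, wh (vw τ) q (pderiv (some (some i)) φ) := fun i => wh_pderiv hφ.wh _ _ rfl
  obtain ⟨D, ρ, hD, hρ, i1, i2, i3, i4, i5, i6⟩ := arith8 hn hnq hse
  set W := W8 τ ((q + s) * D) (n * D) (n * ρ) with hW
  have hWT : W none = (q + s) * D := rfl
  have hWy : W (some none) = n * D := rfl
  have hWx : ∀ i, W (some (some i)) = n * ρ := fun i => rfl
  set w0 : MvPolynomial (Option (Option τ)) ℂ := C (-(1 / 2)) * X (some none) ^ 2 with hw0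
  set y : MvPolynomial (Option (Option τ)) ℂ := X (some none) with hy
  have lw : Lead W (2 * (n * D)) (wq (Option τ)) w0 := lead_wq8 i1 i2
  have hw0h : wh W (2 * (n * D)) w0 := by
    have h1 := wh_C_mul (-(1 / 2)) (wh_pow (wh_X W (some none)) 2)
    rw [hWy, mul_comm (n * D) 2] at h1
    exact h1
  have ly : Lead W (n * D) y y := Lead.X W (some none)
  have hyh : wh W (n * D) y := wh_X W (some none)
  have eB : 2 * (n * D) * s + n * D * (e + 2) = n * ((q + s) * D) := by
    rw [← hse]; ring
  have eB' : 2 * (n * D) * (s + 1) + n * D * e = n * ((q + s) * D) := by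
    rw [← hse]; ring
  have lL : Lead W (n * ((q + s) * D)) (L8 φ s e β) (C (β * (s + 1)) * (w0 ^ s * y ^ (e + 2))) := by
    unfold L8
    have h1 := (((lw.pow s).mul (ly.pow (e + 2))).cast eB).C_mul (β * (s + 1))
    have h2 : wlo W (n * ((q + s) * D) + 1) (sev (pderiv (some none) φ)) :=
      wlo_mono (by omega) (lead_sev0 i1 i2 i3 i4 hw).lof
    rw [add_comm (sev _)]
    exact h1.add_hi h2
  have hL : wh W (n * ((q + s) * D)) (C (β * (s + 1)) * (w0 ^ s * y ^ (e + 2))) := by
    have h1 := wh_mul (wh_pow hw0h s) (wh_pow hyh (e + 2))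
    rw [eB] at h1
    exact wh_C_mul _ h1
  have lT : Lead W (n * ((q + s) * D)) (X none ^ n) (X none ^ n : MvPolynomial (Option (Option τ)) ℂ) :=
    ((Lead.X W none).pow n).cast (by rw [hWT]; ring)
  have hT : wh W (n * ((q + s) * D)) (X none ^ n : MvPolynomial (Option (Option τ)) ℂ) := by
    have h1 := wh_pow (wh_X W (none : Option (Option τ))) n
    rw [hWT, mul_comm] at h1
    exact h1
  have h := wBez (w := W) (d := fun o => o.elim (n * ((q + s) * D) + 2 * (n * D)) fun o =>
      o.elim (n * ((q + s) * D)) fun _ => n * ρ * q)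
    (f := G8 φ a n s e α β)
    (g := fun o => o.elim (C (α * a) * (X none ^ n * y ^ 2) - w0 * (C (β * (s + 1)) * (w0 ^ s * y ^ (e + 2))))
      fun o => o.elim (C (2 * α) * X none ^ n + C (β * (e + 2)) * (w0 ^ (s + 1) * y ^ e) -
          C (β * (s + 1)) * (w0 ^ s * y ^ (e + 2)))
      fun i => sev0 (pderiv (some (some i)) φ))
    (by
      intro o
      rcases o with _ | _ | i
      · rw [hWT]; exact Nat.mul_pos (by omega) hD
      · rw [hWy]; exact Nat.mul_pos (by omega) hD
      · rw [hWx]; exact Nat.mul_pos (by omega) hρ)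
    (by
      have h1 : 0 < n * ((q + s) * D) := Nat.mul_pos (by omega) (Nat.mul_pos (by omega) hD)
      intro o
      rcases o with _ | _ | i
      · simp only [Option.elim]; omega
      · exact h1
      · exact Nat.mul_pos (Nat.mul_pos (by omega) hρ) (by omega))
    (by
      intro o
      rcases o with _ | _ | i
      · change wh W (n * ((q + s) * D) + 2 * (n * D)) (_ - _)
        refine wh_sub (wh_C_mul _ ?_) ?_
        · have h1 := wh_mul hT (wh_pow hyh 2)
          rw [mul_comm (n * D) 2] at h1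
          exact h1
        · have h1 := wh_mul hw0h hL
          rw [add_comm] at h1
          exact h1
      · change wh W (n * ((q + s) * D)) (_ + _ - _)
        refine wh_sub (wh_add (wh_C_mul _ hT) (wh_C_mul _ ?_)) hL
        have h1 := wh_mul (wh_pow hw0h (s + 1)) (wh_pow hyh e)
        rw [eB'] at h1
        exact h1
      · exact wh_sev0 (hx i))
    (by
      intro p hp
      have h1 := hp none
      have h2 := hp (some none)
      have h3 : ∀ i : τ, _ := fun i => hp (some (some i))
      simp only [Option.elim, hw0, hy, map_sub, map_add, map_mul, map_pow, eval_C, eval_X] at h1 h2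
      simp only [Option.elim] at h3
      set t := p none ^ n with ht
      set Y := p (some none) with hY
      set z := (-(1 / 2) * Y ^ 2) ^ s * Y ^ e with hz
      have e1 : (-(1 / 2) * Y ^ 2) ^ s * Y ^ (e + 2) = z * Y ^ 2 := by rw [hz]; ring
      have e2 : (-(1 / 2) * Y ^ 2) ^ (s + 1) * Y ^ e = z * (-(1 / 2) * Y ^ 2) := by rw [hz]; ring
      rw [e1] at h1 h2
      rw [e2] at h2
      have h4 : (β * (a * ((e + 2) / 2 + (s + 1)) + (s + 1)) / 2) * (Y ^ 4 * z) = 0 := by
        linear_combination h1 - (a * Y ^ 2 / 2) * h2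
      have h5 : (β * (a * ((e + 2) / 2 + (s + 1)) + (s + 1)) / 2 : ℂ) ≠ 0 := by
        refine div_ne_zero (mul_ne_zero hβ ?_) two_ne_zero
        have h6 : (a * ((e + 2) / 2 + (s + 1)) + (s + 1) : ℂ) =
            (((a * ((e + 2) / 2 + (s + 1)) + (s + 1) : ℝ)) : ℂ) := by push_cast; ring
        rw [h6]
        have h7 : (0 : ℝ) < a * ((e + 2) / 2 + (s + 1)) + (s + 1) := by positivity
        exact_mod_cast h7.ne'
      have h6 : Y = 0 := by
        have h7 := (mul_eq_zero.mp h4).resolve_left h5
        by_contra hne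
        have h8 : (-(1 / 2) * Y ^ 2 : ℂ) ≠ 0 := mul_ne_zero (by norm_num) (pow_ne_zero _ hne)
        exact mul_ne_zero (pow_ne_zero _ hne) (mul_ne_zero (pow_ne_zero _ h8) (pow_ne_zero _ hne)) h7
      have h7 : p none = 0 := by
        have h8 : 2 * α * t = 0 := by
          rw [h6] at h2
          linear_combination h2
        have h9 := (mul_eq_zero.mp h8).resolve_left (mul_ne_zero two_ne_zero hα)
        exact pow_eq_zero_iff (by omega) |>.mp h9
      have h8 := hφ.ndx (fun o : Option (Option τ) => o.elim 0 fun o => o.elim 0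
        fun k => p (some (some k))) rfl rfl (by
          intro i
          have := h3 i
          rwa [eval_sev0] at this)
      funext o
      rcases o with _ | _ | i
      · exact h7
      · exact h6
      · exact congrFun h8 (some (some i)))
    (by
      intro o
      rcases o with _ | _ | i
      · change Lead W (n * ((q + s) * D) + 2 * (n * D)) (C (α * a) * (X none ^ n * X (some none) ^ 2) -
          wq (Option τ) * L8 φ s e β) _
        refine Lead.sub (Lead.C_mul _ ?_) ?_
        · exact (lT.mul (ly.pow 2)).cast (by ring)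
        · exact (lw.mul lL).cast (by ring)
      · change Lead W (n * ((q + s) * D)) (C (2 * α) * X none ^ n +
          C (β * (e + 2)) * (wq (Option τ) ^ (s + 1) * X (some none) ^ e) - L8 φ s e β) _
        refine Lead.sub (Lead.add (lT.C_mul _) (Lead.C_mul _ ?_)) lL
        exact ((lw.pow (s + 1)).mul (ly.pow e)).cast eB'
      · change Lead W (n * ρ * q) (sev (pderiv (some (some i)) φ) - X (some (some i)) * L8 φ s e β)
          (sev0 (pderiv (some (some i)) φ))
        have h1 := lead_sev0 i1 i2 i3 i4 (hx i)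
        have h2 : wlo W (n * ρ * q + 1) (-(X (some (some i)) * L8 φ s e β)) := by
          refine wlo_neg (wlo_mono ?_ (wlo_mul (wh_X W (some (some i))).wlo lL.lof))
          rw [hWx]
          omega
        have h3 := h1.add_hi h2
        rw [← sub_eq_add_neg] at h3
        exact h3)
  rw [Fintype.prod_option, Fintype.prod_option, Fintype.prod_option, Fintype.prod_option] at h
  simp only [hW, W8, Option.elim, Finset.prod_const, Finset.card_univ] at h
  have h3 : mulAt (Ideal.span (Set.range (G8 φ a n s e α β))) 0 * ((q + s) * D * (n * D * (n * ρ) ^ Fintype.card τ)) =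
      (n * (q + 2 + s) * q ^ Fintype.card τ) * ((q + s) * D * (n * D * (n * ρ) ^ Fintype.card τ)) := by
    rw [h, mul_pow (n * ρ) q]
    ring
  have h4 : 0 < (q + s) * D * (n * D * (n * ρ) ^ Fintype.card τ) := by
    have : 0 < q + s := by omega
    positivity
  exact Nat.eq_of_mul_eq_mul_right h4 h3

/-- the multiplicity of a class C form is not 0 -/
theorem MSt.mulAt_ne {q E₀ : ℕ} (hq1 : 1 ≤ q) (h : MSt τ q E₀ φ) :
    mulAt (affIdeal (formC φ) (gram τ) (some none)) 0 ≠ 0 := by
  have hφ : ∀ o : Option τ, wh (vw τ) q (pderiv (some o) φ) := fun o =>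
    wh_pderiv h.wh (some o) q (by rcases o with _ | o <;> rfl)
  obtain ⟨hfin, hdim⟩ := crit_dim hq1 h
  obtain ⟨-, hsplit⟩ := crit_split φ hφ hfin (mst_hi h) (fun x hx => by
    exact one_ne_zero (mst_hii h 1 x hx).1)
  have h1 := classC hq1 h
  have h2 : 0 < q ^ Fintype.card τ := by positivity
  have h3 := h.len
  omega

/-- **M4, case A**: the multiplicity of the step `S(n, E)`, `q + 2 ≤ E ≤ 2 q` -/
theorem S_multA {q E₀ E : ℕ} (h : MSt τ q E₀ φ) (hα : α ≠ 0) (hβ : β ≠ 0) (hn : 1 ≤ n) (hnq : 2 * n + 1 ≤ q)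
    (hE : q + 2 ≤ E) (hE' : E ≤ 2 * q) :
    mulAt (affIdeal (formS φ (SHA τ q n E α β)) (gram (Option τ)) (some none)) 0 =
      mulAt (affIdeal (formC φ) (gram τ) (some none)) 0 + n * E * q ^ Fintype.card τ := by
  obtain ⟨s, rfl⟩ : ∃ s, E = q + 2 + s := ⟨E - (q + 2), by omega⟩
  obtain ⟨e, he⟩ : ∃ e, s + e + 2 = q := ⟨q - 2 - s, by omega⟩
  have e1 : q + 2 + s - q - 1 = s + 1 := by omega
  have e2 : 2 * q + 2 - (q + 2 + s) = e + 2 := by omega
  have hF : formS φ (SHA τ q n (q + 2 + s) α β) = subN (qf (Option τ)) (F8 φ (q - 1 - 2 * n) n s e α β) := by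
    unfold formS SHA F8
    rw [e1, e2]
  rw [hF, mulAt_T]
  obtain ⟨a, ha⟩ : ∃ a, a = q - 1 - 2 * n := ⟨_, rfl⟩
  rw [← ha]
  have hG : Function.update (tSys (F8 φ a n s e α β)) (some none) (C (2 * α) * X none ^ n +
      C (β * (e + 2)) * (wq (Option τ) ^ (s + 1) * X (some none) ^ e) - L8 φ s e β) = G8 φ a n s e α β := by
    funext o
    rcases o with _ | _ | i
    · rw [Function.update_of_ne (by simp), tSys_F8_none]
      rfl
    · rw [Function.update_self]
      rfl
    · rw [Function.update_of_ne (by simp), tSys_F8_x]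
      rfl
  have h5 := mulAt_G8 φ a n s e α β h.toSt hn hnq he hα hβ
  have hyL : y0 (L8 φ s e β) = cev (pderiv (some none) φ) := by
    unfold L8
    simp only [map_add, map_mul, map_pow, y0_sev, y0_y, y0_C, y0_wq]
    rw [zero_pow (by omega)]
    ring
  have h6 := splitY φ (tSys (F8 φ a n s e α β)) (C (2 * α) * X none ^ n +
      C (β * (e + 2)) * (wq (Option τ) ^ (s + 1) * X (some none) ^ e) - L8 φ s e β)
    (tSys_F8_y φ a n s e α β)
    (by
      rw [tSys_F8_none, tSys_embC_none, map_sub, map_mul (y0 (τ := τ)) (wq _), hyL, y0_wq]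
      simp)
    (by
      intro i
      rw [tSys_F8_x, tSys_embC_some, map_sub, map_mul, y0_x, y0_sev, hyL])
    (h.mulAt_ne φ (by omega))
    (by
      rw [hG, h5]
      have : 0 < n * (q + 2 + s) * q ^ Fintype.card τ := by
        have : 0 < q := by omega
        positivity
      omega)
  rw [h6, hG, h5]

end

end EY
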