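import Pool.Agent.helper8.EY.SMulA
import Pool.Agent.helper26.SE.Cover

set_option autoImplicit false
set_option linter.unusedSectionVars false
set_option linter.unusedSimpArgs false

/-!
# EY-M4 (case B): the step `S(n, E)`, `3 ≤ E ≤ q + 1`: `f = φ(Q; w, x) + α u^(q-1-2n) Q^n y² + β u^(q+1-E) y^E`

Weights of the second sheet (coordinates `T, y, x`): `T : (E - 2) D`, `y : n D`, `x : ρ` with
`D = 3 (q + 2)`, `ρ = 3 n E + 1`.
-/

namespace EY

open MvPolynomial

noncomputable section

variable {τ : Type} [Fintype τ] [DecidableEq τ]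

/-- the polynomial of the step; the exponent is `E = e + 3` -/
def F9 (φ : MvPolynomial (Option (Option τ)) ℂ) (a n b e : ℕ) (α β : ℂ) :
    MvPolynomial (Option (Option (Option (Option τ)))) ℂ :=
  rename (embY τ) φ + (C α * (X (some none) ^ a * X none ^ n * X (some (some (some none))) ^ 2) +
    C β * (X (some none) ^ b * X (some (some (some none))) ^ (e + 3)))

variable (φ : MvPolynomial (Option (Option τ)) ℂ) (a n b e : ℕ) (α β : ℂ)

theorem tev_F9_u : tev (pderiv (some none) (F9 φ a n b e α β)) =
    C (α * a) * (X none ^ n * X (some none) ^ 2) + C (β * b) * X (some none) ^ (e + 3) := by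
  have p1 : pderiv (some none) (X (some (some (some none))) : MvPolynomial (Option (Option (Option (Option τ)))) ℂ) = 0 :=
    pderiv_X_of_ne (by simp)
  have p2 : pderiv (some none) (X (some none) : MvPolynomial (Option (Option (Option (Option τ)))) ℂ) = 1 :=
    pderiv_X_self _
  have p3 : pderiv (some none) (X none : MvPolynomial (Option (Option (Option (Option τ)))) ℂ) = 0 :=
    pderiv_X_of_ne (by simp)
  unfold F9
  simp only [map_add, pderiv_embY_u, zero_add, Derivation.leibniz, Derivation.leibniz_pow, p1, p2, p3, pderiv_C,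
    smul_zero, smul_eq_mul, mul_one, add_zero, map_mul, map_pow, tev_x, tev_C, tev_T, tev_u,
      one_pow, mul_zero, nsmul_eq_mul, map_natCast, C_mul]
  ring

theorem tev_F9_w : tev (pderiv (some (some none)) (F9 φ a n b e α β)) = sev (pderiv (some none) φ) := by
  have q1 : pderiv (some (some none)) (X (some (some (some none))) :
      MvPolynomial (Option (Option (Option (Option τ)))) ℂ) = 0 := pderiv_X_of_ne (by simp)
  have q2 : pderiv (some (some none)) (X (some none) : MvPolynomial (Option (Option (Option (Option τ)))) ℂ) = 0 :=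
    pderiv_X_of_ne (by simp)
  have q3 : pderiv (some (some none)) (X none : MvPolynomial (Option (Option (Option (Option τ)))) ℂ) = 0 :=
    pderiv_X_of_ne (by simp)
  unfold F9
  simp only [map_add, pderiv_embY_w, Derivation.leibniz, Derivation.leibniz_pow, q1, q2, q3, pderiv_C,
    smul_zero, smul_eq_mul, add_zero, mul_zero, tev_embY]

theorem tev_F9_y : tev (pderiv (some (some (some none))) (F9 φ a n b e α β)) =
    X (some none) * (C (2 * α) * X none ^ n + C (β * (e + 3)) * X (some none) ^ (e + 1)) := by
  have p1 : pderiv (some (some (some none))) (X (some (some (some none))) :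
      MvPolynomial (Option (Option (Option (Option τ)))) ℂ) = 1 := pderiv_X_self _
  have p2 : pderiv (some (some (some none))) (X (some none) :
      MvPolynomial (Option (Option (Option (Option τ)))) ℂ) = 0 := pderiv_X_of_ne (by simp)
  have p3 : pderiv (some (some (some none))) (X none : MvPolynomial (Option (Option (Option (Option τ)))) ℂ) = 0 :=
    pderiv_X_of_ne (by simp)
  have c2 : (C 2 : MvPolynomial (Option (Option τ)) ℂ) = 2 := map_ofNat C 2
  have c3 : (C 3 : MvPolynomial (Option (Option τ)) ℂ) = 3 := map_ofNat C 3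
  unfold F9
  simp only [map_add, pderiv_embY_y, zero_add, Derivation.leibniz, Derivation.leibniz_pow, p1, p2, p3, pderiv_C,
    smul_zero, smul_eq_mul, mul_one, add_zero, map_mul, map_pow, tev_x, tev_w, tev_C, tev_T, tev_u,
      one_pow, mul_zero, nsmul_eq_mul, map_natCast, C_mul, tev_embY, Nat.add_sub_cancel, map_one, C_add, c2, c3]
  have e1 : e + 3 - 1 = e + 2 := rfl
  rw [e1]
  push_cast
  ring

theorem tev_F9_x (i : τ) : tev (pderiv (some (some (some (some i)))) (F9 φ a n b e α β)) =
    sev (pderiv (some (some i)) φ) := by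
  have p1 : pderiv (some (some (some (some i)))) (X (some (some (some none))) :
      MvPolynomial (Option (Option (Option (Option τ)))) ℂ) = 0 := pderiv_X_of_ne (by simp)
  have p2 : pderiv (some (some (some (some i)))) (X (some none) :
      MvPolynomial (Option (Option (Option (Option τ)))) ℂ) = 0 := pderiv_X_of_ne (by simp)
  have p3 : pderiv (some (some (some (some i)))) (X none :
      MvPolynomial (Option (Option (Option (Option τ)))) ℂ) = 0 := pderiv_X_of_ne (by simp)
  unfold F9
  simp only [map_add, pderiv_embY_x, Derivation.leibniz, Derivation.leibniz_pow, p1, p2, p3, pderiv_C,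
    smul_zero, smul_eq_mul, add_zero, mul_zero, tev_embY]

theorem tSys_F9_none : tSys (F9 φ a n b e α β) none =
    C (α * a) * (X none ^ n * X (some none) ^ 2) + C (β * b) * X (some none) ^ (e + 3) -
      wq (Option τ) * sev (pderiv (some none) φ) := by
  change tev _ - wq (Option τ) * tev _ = _
  rw [tev_F9_u, tev_F9_w]

theorem tSys_F9_y : tSys (F9 φ a n b e α β) (some none) =
    X (some none) * (C (2 * α) * X none ^ n + C (β * (e + 3)) * X (some none) ^ (e + 1) -
      sev (pderiv (some none) φ)) := by
  change tev _ - X (some none) * tev _ = _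
  rw [tev_F9_y, tev_F9_w]
  ring

theorem tSys_F9_x (i : τ) : tSys (F9 φ a n b e α β) (some (some i)) =
    sev (pderiv (some (some i)) φ) - X (some (some i)) * sev (pderiv (some none) φ) := by
  change tev _ - X (some (some i)) * tev _ = _
  rw [tev_F9_x, tev_F9_w]

/-! ### the second sheet -/

omit [DecidableEq τ] in
/-- the order of `w = T - (y² + |x|²)/2` -/
theorem wlo_wq9 {BD nD nr m : ℕ} (h0 : m ≤ BD) (h1 : m ≤ 2 * nD) (h2 : m ≤ 2 * nr) :
    wlo (W8 τ BD nD nr) m (wq (Option τ)) := by
  rw [wq_eq]
  refine wlo_add ?_ ?_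
  · have h3 := ((Lead.X (W8 τ BD nD nr) (some none)).pow 2).C_mul (-(1 / 2))
    exact wlo_mono (by simp only [W8, Option.elim]; omega) h3.lof
  · refine wlo_sub ?_ ?_
    · exact wlo_mono (by simp only [W8, Option.elim]; omega) (wh_X (W8 τ BD nD nr) none).wlo
    · refine wlo_C_mul _ (wlo_sum _ fun i _ => ?_)
      exact wlo_mono (by simp only [W8, Option.elim]; omega) (wh_pow (wh_X (W8 τ BD nD nr) (some (some i))) 2).wlo

omit [DecidableEq τ] in
/-- the initial form of `φ(T; w, x)` is `φ(0; 0, x)` -/
theorem lead_sev9 {BD nD nr m : ℕ} (h0 : 0 < nr) (h3 : nr < 2 * nD) (h4 : 2 * nr < BD)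
    {φ : MvPolynomial (Option (Option τ)) ℂ} (h : wh (vw τ) m φ) :
    Lead (W8 τ BD nD nr) (nr * m) (sev φ) (sev0 φ) := by
  unfold sev sev0
  refine Lead.aeval (v := fun o => nr * vw τ o) (fun o => ?_) (Lead.self (wh_scale nr h).wlo)
  rcases o with _ | _ | k
  · refine Lead.zero ?_
    exact wlo_mono (by simp only [W8, vw, Option.elim]; omega) (wh_X (W8 τ BD nD nr) none).wlo
  · refine Lead.zero ?_
    have h5 : wlo (W8 τ BD nD nr) (nr + 1) (wq (Option τ)) := wlo_wq9 (by omega) (by omega) (by omega)
    exact wlo_mono (by simp only [vw, Option.elim]; omega) h5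
  · exact (Lead.X (W8 τ BD nD nr) (some (some k))).cast (by simp [W8, vw])

/-- the second sheet -/
def G9 : Option (Option τ) → MvPolynomial (Option (Option τ)) ℂ
  | none => C (α * a) * (X none ^ n * X (some none) ^ 2) + C (β * b) * X (some none) ^ (e + 3) -
      wq (Option τ) * sev (pderiv (some none) φ)
  | some none => C (2 * α) * X none ^ n + C (β * (e + 3)) * X (some none) ^ (e + 1) - sev (pderiv (some none) φ)
  | some (some i) => sev (pderiv (some (some i)) φ) - X (some (some i)) * sev (pderiv (some none) φ)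

/-- **the second sheet** -/
theorem mulAt_G9 {q E₀ : ℕ} (hφ : St τ q E₀ φ) (hn : 1 ≤ n) (hnq : 2 * n + 1 ≤ q) (he : e + 2 ≤ q)
    (hA : 2 * n * (e + 3) < (e + 1) * (q + 2)) (hab : 2 * b ≠ a * (e + 3))
    (hα : α ≠ 0) (hβ : β ≠ 0) :
    mulAt (Ideal.span (Set.range (G9 φ a n b e α β))) 0 = n * (e + 3) * q ^ Fintype.card τ := by
  have hw : wh (vw τ) q (pderiv (some none) φ) := wh_pderiv hφ.wh _ _ rfl
  have hx : ∀ i, wh (vw τ) q (pderiv (some (some i)) φ) := fun i => wh_pderiv hφ.wh _ _ rfl
  obtain ⟨D, hD⟩ : ∃ D, D = 3 * (q + 2) := ⟨_, rfl⟩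
  obtain ⟨ρ, hρ⟩ : ∃ ρ, ρ = 3 * n * (e + 3) + 1 := ⟨_, rfl⟩
  have hD0 : 0 < D := by omega
  have hρ0 : 0 < ρ := by omega
  have i1 : 2 * ρ < (e + 1) * D := by rw [hρ, hD]; nlinarith
  have i2 : ρ < 2 * (n * D) := by rw [hρ, hD]; nlinarith
  have i3 : n * (e + 3) * D < ρ * q + 2 * ρ := by rw [hρ, hD]; nlinarith
  have i4 : n * (e + 1) * D < ρ * q := by
    obtain ⟨r, rfl⟩ : ∃ r, q = e + 2 + r := ⟨q - (e + 2), by omega⟩
    rw [hρ, hD]; nlinarith [Nat.zero_le (n * r)]
  set W := W8 τ ((e + 1) * D) (n * D) ρ with hW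
  have hWT : W none = (e + 1) * D := rfl
  have hWy : W (some none) = n * D := rfl
  have hWx : ∀ i, W (some (some i)) = ρ := fun i => rfl
  set y : MvPolynomial (Option (Option τ)) ℂ := X (some none) with hy
  have ly : Lead W (n * D) y y := Lead.X W (some none)
  have hyh : wh W (n * D) y := wh_X W (some none)
  have lL : wlo W (ρ * q) (sev (pderiv (some none) φ)) := (lead_sev9 hρ0 i2 i1 hw).lof
  have lw : wlo W (min (2 * (n * D)) (2 * ρ)) (wq (Option τ)) :=
    wlo_wq9 (by omega) (by omega) (by omega)
  have lwL : wlo W (n * (e + 3) * D + 1) (wq (Option τ) * sev (pderiv (some none) φ)) := by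
    refine wlo_mono ?_ (wlo_mul lw lL)
    have i5 : n * (e + 3) * D = n * (e + 1) * D + 2 * (n * D) := by ring
    omega
  have lT : Lead W (n * (e + 1) * D) (X none ^ n) (X none ^ n : MvPolynomial (Option (Option τ)) ℂ) :=
    ((Lead.X W none).pow n).cast (by rw [hWT]; ring)
  have hT : wh W (n * (e + 1) * D) (X none ^ n : MvPolynomial (Option (Option τ)) ℂ) := by
    have h1 := wh_pow (wh_X W (none : Option (Option τ))) n
    rw [hWT] at h1
    have e1 : (e + 1) * D * n = n * (e + 1) * D := by ring
    rwa [e1] at h1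
  have h := wBez (w := W) (d := fun o => o.elim (n * (e + 3) * D) fun o =>
      o.elim (n * (e + 1) * D) fun _ => ρ * q)
    (f := G9 φ a n b e α β)
    (g := fun o => o.elim (C (α * a) * (X none ^ n * y ^ 2) + C (β * b) * y ^ (e + 3))
      fun o => o.elim (C (2 * α) * X none ^ n + C (β * (e + 3)) * y ^ (e + 1))
      fun i => sev0 (pderiv (some (some i)) φ))
    (by
      intro o
      rcases o with _ | _ | i
      · rw [hWT]; exact Nat.mul_pos (by omega) hD0
      · rw [hWy]; exact Nat.mul_pos (by omega) hD0
      · rw [hWx]; exact hρ0)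
    (by
      intro o
      rcases o with _ | _ | i
      · exact Nat.mul_pos (Nat.mul_pos (by omega) (by omega)) hD0
      · exact Nat.mul_pos (Nat.mul_pos (by omega) (by omega)) hD0
      · exact Nat.mul_pos hρ0 (by omega))
    (by
      intro o
      rcases o with _ | _ | i
      · change wh W (n * (e + 3) * D) (_ + _)
        refine wh_add (wh_C_mul _ ?_) (wh_C_mul _ ?_)
        · have h1 := wh_mul hT (wh_pow hyh 2)
          have e1 : n * (e + 1) * D + n * D * 2 = n * (e + 3) * D := by ring
          rwa [e1] at h1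
        · have h1 := wh_pow hyh (e + 3)
          have e1 : n * D * (e + 3) = n * (e + 3) * D := by ring
          rwa [e1] at h1
      · change wh W (n * (e + 1) * D) (_ + _)
        refine wh_add (wh_C_mul _ hT) (wh_C_mul _ ?_)
        have h1 := wh_pow hyh (e + 1)
        have e1 : n * D * (e + 1) = n * (e + 1) * D := by ring
        rwa [e1] at h1
      · exact wh_sev0 (hx i))
    (by
      intro p hp
      have h1 := hp none
      have h2 := hp (some none)
      have h3 : ∀ i : τ, _ := fun i => hp (some (some i))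
      simp only [Option.elim, hy, map_sub, map_add, map_mul, map_pow, eval_C, eval_X] at h1 h2
      simp only [Option.elim] at h3
      set t := p none ^ n with ht
      set Y := p (some none) with hY
      have h4 : (β * (2 * b - a * (e + 3)) / 2) * Y ^ (e + 3) = 0 := by
        linear_combination h1 - (a * Y ^ 2 / 2) * h2
      have h5 : (β * (2 * b - a * (e + 3)) / 2 : ℂ) ≠ 0 := by
        refine div_ne_zero (mul_ne_zero hβ (sub_ne_zero.mpr ?_)) two_ne_zero
        exact_mod_cast hab
      have h6 : Y = 0 := pow_eq_zero_iff (by omega) |>.mp ((mul_eq_zero.mp h4).resolve_left h5)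
      have h7 : p none = 0 := by
        have h8 : 2 * α * t = 0 := by
          rw [h6, zero_pow (by omega)] at h2
          linear_combination h2
        have h9 := (mul_eq_zero.mp h8).resolve_left (mul_ne_zero two_ne_zero hα)
        exact pow_eq_zero_iff (by omega) |>.mp h9
      have h8 := hφ.ndx (fun o : Option (Option τ) => o.elim 0 fun o => o.elim 0
        fun k => p (some (some k))) rfl rfl (by
          intro i
          have := h3 i
          rwa [eval_sev0] at this)
      funext o
      rcases o with _ | _ | i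
      · exact h7
      · exact h6
      · exact congrFun h8 (some (some i)))
    (by
      intro o
      rcases o with _ | _ | i
      · change Lead W (n * (e + 3) * D) (C (α * a) * (X none ^ n * X (some none) ^ 2) +
          C (β * b) * X (some none) ^ (e + 3) - wq (Option τ) * sev (pderiv (some none) φ)) _
        have h1 := Lead.add (((lT.mul (ly.pow 2)).cast
          (show n * (e + 1) * D + n * D * 2 = n * (e + 3) * D by ring)).C_mul (α * a))
          (((ly.pow (e + 3)).cast (show n * D * (e + 3) = n * (e + 3) * D by ring)).C_mul (β * b))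
        have h3 := h1.add_hi (wlo_neg lwL)
        rw [← sub_eq_add_neg] at h3
        exact h3
      · change Lead W (n * (e + 1) * D) (C (2 * α) * X none ^ n + C (β * (e + 3)) * X (some none) ^ (e + 1) -
          sev (pderiv (some none) φ)) _
        have h1 := Lead.add (lT.C_mul (2 * α))
          (((ly.pow (e + 1)).cast (show n * D * (e + 1) = n * (e + 1) * D by ring)).C_mul (β * (e + 3)))
        have h2 : wlo W (n * (e + 1) * D + 1) (-(sev (pderiv (some none) φ))) := wlo_neg (wlo_mono (by omega) lL)
        have h3 := h1.add_hi h2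
        rw [← sub_eq_add_neg] at h3
        exact h3
      · change Lead W (ρ * q) (sev (pderiv (some (some i)) φ) - X (some (some i)) * sev (pderiv (some none) φ))
          (sev0 (pderiv (some (some i)) φ))
        have h1 := lead_sev9 hρ0 i2 i1 (hx i)
        have h2 : wlo W (ρ * q + 1) (-(X (some (some i)) * sev (pderiv (some none) φ))) := by
          refine wlo_neg (wlo_mono ?_ (wlo_mul (wh_X W (some (some i))).wlo lL))
          rw [hWx]
          omega
        have h3 := h1.add_hi h2
        rw [← sub_eq_add_neg] at h3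
        exact h3)
  rw [Fintype.prod_option, Fintype.prod_option, Fintype.prod_option, Fintype.prod_option] at h
  simp only [hW, W8, Option.elim, Finset.prod_const, Finset.card_univ] at h
  have h3 : mulAt (Ideal.span (Set.range (G9 φ a n b e α β))) 0 * ((e + 1) * D * (n * D * ρ ^ Fintype.card τ)) =
      (n * (e + 3) * q ^ Fintype.card τ) * ((e + 1) * D * (n * D * ρ ^ Fintype.card τ)) := by
    rw [h, mul_pow ρ q]
    ring
  have h4 : 0 < (e + 1) * D * (n * D * ρ ^ Fintype.card τ) := by positivity
  exact Nat.eq_of_mul_eq_mul_right h4 h3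

/-- **M4, case B**: the multiplicity of the step `S(n, E)`, `3 ≤ E ≤ q + 1` -/
theorem S_multB {q E₀ E : ℕ} (h : MSt τ q E₀ φ) (hα : α ≠ 0) (hβ : β ≠ 0) (hA : SE.Adm q n E) (hE : E ≤ q + 1) :
    mulAt (affIdeal (formS φ (SHB τ q n E α β)) (gram (Option τ)) (some none)) 0 =
      mulAt (affIdeal (formC φ) (gram τ) (some none)) 0 + n * E * q ^ Fintype.card τ := by
  obtain ⟨hn, hnq, hE3, -, hA⟩ := hA
  have hA : 2 * (q + 2) < E * (q + 2 - 2 * n) ∧ E * (q + 1 - 2 * n) ≠ 2 * (q + 1) := by
    rcases hA with h1 | h1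
    · omega
    · exact ⟨h1.2.1, h1.2.2⟩
  obtain ⟨e, rfl⟩ : ∃ e, E = e + 3 := ⟨E - 3, by omega⟩
  obtain ⟨a, ha⟩ : ∃ a, q = a + 1 + 2 * n := ⟨q - 1 - 2 * n, by omega⟩
  obtain ⟨b, hb⟩ : ∃ b, q + 1 = b + (e + 3) := ⟨q + 1 - (e + 3), by omega⟩
  have e1 : q - 1 - 2 * n = a := by omega
  have e2 : q + 1 - (e + 3) = b := by omega
  have hF : formS φ (SHB τ q n (e + 3) α β) = subN (qf (Option τ)) (F9 φ a n b e α β) := by
    unfold formS SHB F9
    rw [e1, e2]
  have c1 : 2 * n * (e + 3) < (e + 1) * (q + 2) := by
    have h1 := hA.1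
    have h2 : q + 2 - 2 * n = a + 3 := by omega
    rw [h2] at h1
    have h3 : (e + 1) * (q + 2) + 2 * (q + 2) = (e + 3) * (a + 3) + 2 * n * (e + 3) := by
      rw [ha]; ring
    omega
  have c2 : 2 * b ≠ a * (e + 3) := by
    intro h1
    apply hA.2
    have h2 : q + 1 - 2 * n = a + 2 := by omega
    rw [h2, hb]
    linarith
  rw [hF, mulAt_T]
  have hG : Function.update (tSys (F9 φ a n b e α β)) (some none) (C (2 * α) * X none ^ n +
      C (β * (e + 3)) * X (some none) ^ (e + 1) - sev (pderiv (some none) φ)) = G9 φ a n b e α β := by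
    funext o
    rcases o with _ | _ | i
    · rw [Function.update_of_ne (by simp), tSys_F9_none]
      rfl
    · rw [Function.update_self]
      rfl
    · rw [Function.update_of_ne (by simp), tSys_F9_x]
      rfl
  have h5 := mulAt_G9 φ a n b e α β h.toSt hn hnq (by omega) c1 c2 hα hβ
  have h6 := splitY φ (tSys (F9 φ a n b e α β)) (C (2 * α) * X none ^ n +
      C (β * (e + 3)) * X (some none) ^ (e + 1) - sev (pderiv (some none) φ))
    (tSys_F9_y φ a n b e α β)
    (by
      rw [tSys_F9_none, tSys_embC_none, map_sub, map_mul (y0 (τ := τ)) (wq _), y0_sev, y0_wq]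
      simp)
    (by
      intro i
      rw [tSys_F9_x, tSys_embC_some, map_sub, map_mul, y0_x, y0_sev, y0_sev])
    (h.mulAt_ne φ (by omega))
    (by
      rw [hG, h5]
      have : 0 < n * (e + 3) * q ^ Fintype.card τ := by
        have : 0 < q := by omega
        positivity
      omega)
  rw [h6, hG, h5]

end

end EY
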