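import Pool.Agent.helper5.EY.Big2
import Pool.Agent.helper8.EY.SMulB

set_option autoImplicit false

/-!
# EY: the step S, case B, for every `q`
-/

namespace EY

open MvPolynomial

/-- the multiplicity of the step S, case B -/
theorem sb_all8 (q : ℕ) : SB q := by
  intro K E₀ φ hφ n E hA hE α β hα hβ
  have h := S_multB φ n α β hφ hα hβ hA hE
  rwa [Fintype.card_fin] at h

end EY
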